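import Pool.Agent.W633.LT.Stm

/-! LG-FRED: the quotients of a good family are coherent on the projective line. -/

set_option autoImplicit false

namespace Pool.Agent.W108.LG

open W633.LT

variable {k : Type} [Field k] (N : Fam k)

lemma bb {b : SignType} (hb : b ≠ 0) : (b : ℤ) * (b : ℤ) = 1 := by
  rcases b with _ | _ | _
  · exact absurd rfl hb
  · rfl
  · rfl

lemma bnat (b : SignType) (i : ℕ) : 0 ≤ (b : ℤ) * ((b : ℤ) * i) := by
  rw [← mul_assoc]
  exact mul_nonneg (mul_self_nonneg _) (Int.natCast_nonneg _)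

lemma natb {b : SignType} (hb : b ≠ 0) {m : ℤ} (hm : 0 ≤ (b : ℤ) * m) :
    m = (b : ℤ) * (((b : ℤ) * m).toNat : ℕ) := by
  rw [Int.toNat_of_nonneg hm, ← mul_assoc, bb hb, one_mul]

lemma aa0 (b : SignType) (m n m' n' : ℤ) (hm : 0 ≤ (b : ℤ) * m) (hm' : 0 ≤ (b : ℤ) * m')
    (v : N.V b 0) : N.act b 0 m n (N.act b 0 m' n' v) = N.act b 0 (m + m') (n + n') v :=
  (N.act_add b 0 m n m' n' hm hm' (by simp) (by simp) v).symm

lemma pow_mk (b c : SignType) (S : Submodule k (N.V b c)) (m0 : ℤ) (hm : 0 ≤ (b : ℤ) * m0)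
    (h : S ≤ S.comap (N.act b c m0 0)) (i : ℕ) (v : N.V b c) :
    ((Submodule.mapQ S S (N.act b c m0 0) h) ^ i) (Submodule.Quotient.mk v) =
      Submodule.Quotient.mk (N.act b c (m0 * i) 0 v) := by
  induction i with
  | zero => simp [N.act_zero]
  | succ i ih =>
    rw [pow_succ', Module.End.mul_apply, ih, Submodule.mapQ_apply,
      ← N.act_add b c m0 0 (m0 * i) 0 hm
        (by rw [← mul_assoc]; exact mul_nonneg hm (Int.natCast_nonneg _)) (by simp) (by simp)]
    congr 2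
    · congr 1
      push_cast
      ring

/-- localisation in the direction of `s` -/
lemma locn (hN : N.Good) {b : SignType} (hb : b ≠ 0) (c : SignType) (y : N.V 0 c) :
    ∃ i : ℕ, ∀ j : ℕ, i ≤ j →
      N.act 0 c ((b : ℤ) * j) 0 y ∈ LinearMap.range (N.res (Sub.zero b) (Sub.refl c)) := by
  obtain ⟨m, n, h1, h2, h3, h4, y0, hy0⟩ := hN.loc (Sub.zero b) (Sub.refl c) y
  have hn : n = 0 := h4 rfl
  subst hn
  refine ⟨((b : ℤ) * m).toNat, fun j hj => ?_⟩
  have hm := natb hb h1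
  set i := ((b : ℤ) * m).toNat with hi
  obtain ⟨r, rfl⟩ := Nat.exists_eq_add_of_le hj
  refine ⟨N.act b c ((b : ℤ) * r) 0 y0, ?_⟩
  rw [N.res_act _ _ _ _ (bnat b r) (by simp), hy0, ← N.act_add 0 c _ _ _ _ (by simp) (by simp)
    (by simp) (by simp)]
  congr 2
  rw [hm]
  push_cast
  ring

section gen

variable (c : SignType) (S : ∀ b, Submodule k (N.V b c))
  (hact : ∀ (b : SignType) (m : ℤ), 0 ≤ (b : ℤ) * m → S b ≤ (S b).comap (N.act b c m 0))
  (hres : ∀ b : SignType, S b ≤ (S 0).comap (N.res (Sub.zero b) (Sub.refl c)))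

/-- multiplication by `s` on the overlap -/
noncomputable def szz : (N.V 0 c ⧸ S 0) ≃ₗ[k] (N.V 0 c ⧸ S 0) :=
  LinearEquiv.ofLinearMap
    (Submodule.mapQ (S 0) (S 0) (N.act 0 c 1 0) (hact 0 1 (by simp)))
    (Submodule.mapQ (S 0) (S 0) (N.act 0 c (-1) 0) (hact 0 (-1) (by simp)))
    (by
      apply LinearMap.ext
      intro x
      obtain ⟨v, rfl⟩ := Submodule.Quotient.mk_surjective _ x
      rw [LinearMap.comp_apply, Submodule.mapQ_apply, Submodule.mapQ_apply,
        ← N.act_add 0 c _ _ _ _ (by simp) (by simp) (by simp) (by simp)]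
      simp [N.act_zero])
    (by
      apply LinearMap.ext
      intro x
      obtain ⟨v, rfl⟩ := Submodule.Quotient.mk_surjective _ x
      rw [LinearMap.comp_apply, Submodule.mapQ_apply, Submodule.mapQ_apply,
        ← N.act_add 0 c _ _ _ _ (by simp) (by simp) (by simp) (by simp)]
      simp [N.act_zero])

lemma fg_q (b : SignType) (m0 : ℤ) (hm0 : m0 = (b : ℤ)) (hm : 0 ≤ (b : ℤ) * m0)
    (hfg : ∃ W : Finset (N.V b c), Submodule.span k
      {u | ∃ w ∈ W, ∃ i : ℕ, u = N.act b c ((b : ℤ) * i) 0 w} ⊔ S b = ⊤) :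
    ∃ W : Finset (N.V b c ⧸ S b), Submodule.span k
      {u | ∃ w ∈ W, ∃ i : ℕ, u = ((Submodule.mapQ (S b) (S b) (N.act b c m0 0)
        (hact b m0 hm)) ^ i) w} = ⊤ := by
  classical
  obtain ⟨W, hW⟩ := hfg
  refine ⟨W.image Submodule.Quotient.mk, ?_⟩
  rw [eq_top_iff]
  intro x _
  obtain ⟨v, rfl⟩ := Submodule.Quotient.mk_surjective _ x
  have hv : v ∈ (⊤ : Submodule k (N.V b c)) := trivial
  rw [← hW, Submodule.mem_sup] at hv
  obtain ⟨y, hy, z, hz, rfl⟩ := hv
  have h1 : (Submodule.Quotient.mk (y + z) : N.V b c ⧸ S b) = (S b).mkQ y := by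
    rw [Submodule.Quotient.mk_add, (Submodule.Quotient.mk_eq_zero _).2 hz, add_zero]
    rfl
  rw [h1]
  have h2 : (S b).mkQ y ∈ (Submodule.span k
      {u | ∃ w ∈ W, ∃ i : ℕ, u = N.act b c ((b : ℤ) * i) 0 w}).map (S b).mkQ :=
    Submodule.mem_map_of_mem hy
  rw [Submodule.map_span] at h2
  refine Submodule.span_mono ?_ h2
  rintro _ ⟨_, ⟨w, hw, i, rfl⟩, rfl⟩
  refine ⟨Submodule.Quotient.mk w, Finset.mem_image_of_mem _ hw, i, ?_⟩
  rw [pow_mk N b c (S b) m0 hm (hact b m0 hm) i w, hm0]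
  rfl

theorem fred_gen (hT : TriFred) (hN : N.Good)
    (hfg : ∀ b : SignType, b ≠ 0 → ∃ W : Finset (N.V b c), Submodule.span k
      {u | ∃ w ∈ W, ∃ i : ℕ, u = N.act b c ((b : ℤ) * i) 0 w} ⊔ S b = ⊤)
    (htor : ∀ b : SignType, b ≠ 0 → ∀ x : N.V b c, N.res (Sub.zero b) (Sub.refl c) x ∈ S 0 →
      ∃ i : ℕ, N.act b c ((b : ℤ) * i) 0 x ∈ S b) :
    Fred ((Submodule.mapQ (S 1) (S 0) (N.res (Sub.zero 1) (Sub.refl c)) (hres 1)) ∘ₗ
        LinearMap.fst k _ _ -
      (Submodule.mapQ (S 0) (S 0) (N.act 0 c (-1) 0) (hact 0 (-1) (by simp))) ∘ₗ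
        (Submodule.mapQ (S (-1)) (S 0) (N.res (Sub.zero (-1)) (Sub.refl c)) (hres (-1))) ∘ₗ
        LinearMap.snd k _ _) := by
  let T : Tri k :=
    { X := N.V 1 c ⧸ S 1
      Y := N.V (-1) c ⧸ S (-1)
      Z := N.V 0 c ⧸ S 0
      sx := Submodule.mapQ (S 1) (S 1) (N.act 1 c 1 0) (hact 1 1 (by simp))
      sy := Submodule.mapQ (S (-1)) (S (-1)) (N.act (-1) c (-1) 0) (hact (-1) (-1) (by simp))
      sz := szz N c S hact
      rx := Submodule.mapQ (S 1) (S 0) (N.res (Sub.zero 1) (Sub.refl c)) (hres 1)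
      ry := Submodule.mapQ (S (-1)) (S 0) (N.res (Sub.zero (-1)) (Sub.refl c)) (hres (-1))
      rx_s := by
        intro x
        obtain ⟨v, rfl⟩ := Submodule.Quotient.mk_surjective _ x
        show Submodule.mapQ _ _ _ _ (Submodule.mapQ _ _ _ _ _) =
          Submodule.mapQ _ _ (N.act 0 c 1 0) (hact 0 1 (by simp)) _
        rw [Submodule.mapQ_apply, Submodule.mapQ_apply, Submodule.mapQ_apply,
          Submodule.mapQ_apply, N.res_act _ _ _ _ (by simp) (by simp)]
      ry_s := by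
        intro x
        obtain ⟨v, rfl⟩ := Submodule.Quotient.mk_surjective _ x
        show Submodule.mapQ _ _ _ _ (Submodule.mapQ _ _ _ _ _) =
          Submodule.mapQ _ _ (N.act 0 c (-1) 0) (hact 0 (-1) (by simp)) _
        rw [Submodule.mapQ_apply, Submodule.mapQ_apply, Submodule.mapQ_apply,
          Submodule.mapQ_apply, N.res_act _ _ _ _ (by simp) (by simp)]
      fgx := fg_q N c S hact 1 1 (by simp) (by simp) (hfg 1 (by decide))
      fgy := fg_q N c S hact (-1) (-1) (by simp) (by simp) (hfg (-1) (by decide))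
      locx := by
        intro z
        obtain ⟨v, rfl⟩ := Submodule.Quotient.mk_surjective _ z
        obtain ⟨i, hi⟩ := locn N hN (b := 1) (by decide) c v
        refine ⟨i, ?_⟩
        obtain ⟨y, hy⟩ := hi i le_rfl
        refine ⟨Submodule.Quotient.mk y, ?_⟩
        show _ = ((Submodule.mapQ (S 0) (S 0) (N.act 0 c 1 0) (hact 0 1 (by simp))) ^ i) _
        rw [pow_mk N 0 c (S 0) 1 (by simp), Submodule.mapQ_apply, hy]
        simp
      locy := by
        intro z
        obtain ⟨v, rfl⟩ := Submodule.Quotient.mk_surjective _ z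
        obtain ⟨i, hi⟩ := locn N hN (b := -1) (by decide) c v
        refine ⟨i, ?_⟩
        obtain ⟨y, hy⟩ := hi i le_rfl
        refine ⟨Submodule.Quotient.mk y, ?_⟩
        show _ = ((Submodule.mapQ (S 0) (S 0) (N.act 0 c (-1) 0) (hact 0 (-1) (by simp))) ^ i) _
        rw [pow_mk N 0 c (S 0) (-1) (by simp), Submodule.mapQ_apply, hy]
        simp
      torx := by
        intro x hx
        obtain ⟨v, rfl⟩ := Submodule.Quotient.mk_surjective _ x
        rw [Submodule.mapQ_apply, Submodule.Quotient.mk_eq_zero] at hx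
        obtain ⟨i, hi⟩ := htor 1 (by decide) v hx
        refine ⟨i, ?_⟩
        rw [pow_mk N 1 c (S 1) 1 (by simp), Submodule.Quotient.mk_eq_zero]
        simpa using hi
      tory := by
        intro x hx
        obtain ⟨v, rfl⟩ := Submodule.Quotient.mk_surjective _ x
        rw [Submodule.mapQ_apply, Submodule.Quotient.mk_eq_zero] at hx
        obtain ⟨i, hi⟩ := htor (-1) (by decide) v hx
        refine ⟨i, ?_⟩
        rw [pow_mk N (-1) c (S (-1)) (-1) (by simp), Submodule.Quotient.mk_eq_zero]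
        simpa using hi }
  exact hT k T

end gen

theorem H_fg (hN : N.Good) (p q : ℤ) (b : SignType) (hb : b ≠ 0) :
    ∃ W : Finset (N.V b 0), Submodule.span k
      {u | ∃ w ∈ W, ∃ i : ℕ, u = N.act b 0 ((b : ℤ) * i) 0 w} ⊔ N.sub b p q = ⊤ := by
  classical
  obtain ⟨W, hW⟩ := hN.fg b (-1)
  have hloc : ∀ w : N.V b (-1), ∃ n : ℤ, 0 ≤ n ∧
      N.act b 0 0 n (N.res (Sub.refl b) (Sub.zero (-1)) w) ∈
        LinearMap.range (N.res (Sub.refl b) (Sub.zero 1)) := by
    intro w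
    obtain ⟨m, n, h1, h2, h3, h4, h5⟩ := hN.loc (Sub.refl b) (Sub.zero 1)
      (N.res (Sub.refl b) (Sub.zero (-1)) w)
    have hm : m = 0 := h3 rfl
    subst hm
    exact ⟨n, by simpa using h2, h5⟩
  choose nw hnw0 hnw using hloc
  refine ⟨W.biUnion (fun w => (Finset.Ico (-q + 1) (p + nw w)).image
    (fun n => N.act b 0 0 n (N.res (Sub.refl b) (Sub.zero (-1)) w))), ?_⟩
  set T := Submodule.span k {u | ∃ w ∈ W.biUnion (fun w => (Finset.Ico (-q + 1) (p + nw w)).image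
    (fun n => N.act b 0 0 n (N.res (Sub.refl b) (Sub.zero (-1)) w))), ∃ i : ℕ,
      u = N.act b 0 ((b : ℤ) * i) 0 w} ⊔ N.sub b p q with hTd
  have key : ∀ w ∈ W, ∀ m n : ℤ, 0 ≤ (b : ℤ) * m →
      N.act b 0 m n (N.res (Sub.refl b) (Sub.zero (-1)) w) ∈ T := by
    intro w hw m n hm
    rcases le_or_gt n (-q) with h1 | h1
    · have h2 : N.act b 0 m n (N.res (Sub.refl b) (Sub.zero (-1)) w) =
          N.act b 0 0 (-q) (N.res (Sub.refl b) (Sub.zero (-1)) (N.act b (-1) m (n + q) w)) := by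
        rw [N.res_act _ _ m (n + q) hm (by simp; omega), aa0 N b _ _ _ _ (by simp) hm]
        congr 2
        · ring
        · ring
      rw [h2]
      exact (le_sup_right : N.sub b p q ≤ T)
        ((le_sup_right : _ ≤ N.sub b p q) ⟨_, ⟨_, rfl⟩, rfl⟩)
    · rcases le_or_gt (p + nw w) n with h2 | h2
      · obtain ⟨y, hy⟩ := hnw w
        have h3 : N.act b 0 m n (N.res (Sub.refl b) (Sub.zero (-1)) w) =
            N.act b 0 0 p (N.res (Sub.refl b) (Sub.zero 1) (N.act b 1 m (n - p - nw w) y)) := by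
          rw [N.res_act _ _ m (n - p - nw w) hm (by simp; omega), hy,
            aa0 N b _ _ _ _ hm (by simp), aa0 N b _ _ _ _ (by simp) (by simpa using hm)]
          congr 2
          · ring
          · ring
        rw [h3]
        exact (le_sup_right : N.sub b p q ≤ T)
          ((le_sup_left : _ ≤ N.sub b p q) ⟨_, ⟨_, rfl⟩, rfl⟩)
      · refine (le_sup_left : _ ≤ T) (Submodule.subset_span ?_)
        refine ⟨N.act b 0 0 n (N.res (Sub.refl b) (Sub.zero (-1)) w), ?_,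
          ((b : ℤ) * m).toNat, ?_⟩
        · rw [Finset.mem_biUnion]
          exact ⟨w, hw, Finset.mem_image_of_mem _ (Finset.mem_Ico.2 ⟨by omega, h2⟩)⟩
        · rw [← natb hb hm, aa0 N b _ _ _ _ hm (by simp)]
          congr 2
          · ring
          · ring
  rw [eq_top_iff]
  intro v _
  obtain ⟨m, n, h1, h2, h3, h4, y, hy⟩ := hN.loc (Sub.refl b) (Sub.zero (-1)) v
  have hm : m = 0 := h3 rfl
  subst hm
  have hv : v = N.act b 0 0 (-n) (N.res (Sub.refl b) (Sub.zero (-1)) y) := by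
    rw [hy, aa0 N b _ _ _ _ (by simp) (by simp)]
    simp [N.act_zero]
  rw [hv]
  have h6 : (⊤ : Submodule k (N.V b (-1))) ≤
      T.comap ((N.act b 0 0 (-n)).comp (N.res (Sub.refl b) (Sub.zero (-1)))) := by
    rw [← hW, Submodule.span_le]
    rintro _ ⟨w, hw, m, n', hm, hn', rfl⟩
    show N.act b 0 0 (-n) (N.res (Sub.refl b) (Sub.zero (-1)) (N.act b (-1) m n' w)) ∈ T
    rw [N.res_act _ _ m n' hm hn', aa0 N b _ _ _ _ (by simp) hm]
    exact key w hw _ _ (by simpa using hm)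
  exact h6 trivial

theorem H_tor (hN : N.Good) (p q : ℤ) (b : SignType) (hb : b ≠ 0) (x : N.V b 0)
    (hx : N.res (Sub.zero b) (Sub.refl 0) x ∈ N.sub 0 p q) :
    ∃ i : ℕ, N.act b 0 ((b : ℤ) * i) 0 x ∈ N.sub b p q := by
  rw [Fam.sub, Submodule.mem_sup] at hx
  obtain ⟨_, ⟨_, ⟨y, rfl⟩, rfl⟩, _, ⟨_, ⟨y', rfl⟩, rfl⟩, hxy⟩ := hx
  obtain ⟨i1, h1⟩ := locn N hN hb 1 y
  obtain ⟨i2, h2⟩ := locn N hN hb (-1) y'
  obtain ⟨u, hu⟩ := h1 (max i1 i2) (le_max_left _ _)
  obtain ⟨u', hu'⟩ := h2 (max i1 i2) (le_max_right _ _)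
  refine ⟨max i1 i2, ?_⟩
  set j := max i1 i2 with hj
  have key : N.act b 0 ((b : ℤ) * j) 0 x =
      N.act b 0 0 p (N.res (Sub.refl b) (Sub.zero 1) u) +
        N.act b 0 0 (-q) (N.res (Sub.refl b) (Sub.zero (-1)) u') := by
    apply hN.inj (Sub.zero b) (Sub.refl 0)
    rw [N.res_act _ _ _ _ (bnat b j) (by simp), ← hxy, map_add, map_add,
      N.res_act _ _ _ _ (by simp) (by simp), N.res_act _ _ _ _ (by simp) (by simp),
      N.res_comp, N.res_comp, aa0 N 0 _ _ _ _ (by simp) (by simp),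
      aa0 N 0 _ _ _ _ (by simp) (by simp)]
    congr 1
    · have e : N.res (Sub.trans (Sub.refl b) (Sub.zero b)) (Sub.trans (Sub.zero 1) (Sub.refl 0)) u =
          N.res (Sub.refl 0) (Sub.zero 1) (N.res (Sub.zero b) (Sub.refl 1) u) := by
        rw [N.res_comp]
      rw [e, hu, N.res_act _ _ _ _ (by simp) (by simp), aa0 N 0 _ _ _ _ (by simp) (by simp)]
      congr 2
      · ring
      · ring
    · have e : N.res (Sub.trans (Sub.refl b) (Sub.zero b)) (Sub.trans (Sub.zero (-1)) (Sub.refl 0))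
          u' = N.res (Sub.refl 0) (Sub.zero (-1)) (N.res (Sub.zero b) (Sub.refl (-1)) u') := by
        rw [N.res_comp]
      rw [e, hu', N.res_act _ _ _ _ (by simp) (by simp), aa0 N 0 _ _ _ _ (by simp) (by simp)]
      congr 2
      · ring
      · ring
  rw [key, Fam.sub]
  exact Submodule.add_mem _ (Submodule.mem_sup_left ⟨_, ⟨_, rfl⟩, rfl⟩)
    (Submodule.mem_sup_right ⟨_, ⟨_, rfl⟩, rfl⟩)

theorem L_fg (hN : N.Good) (c b : SignType) (hb : b ≠ 0) :
    ∃ W : Finset (N.V b c), Submodule.span k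
      {u | ∃ w ∈ W, ∃ i : ℕ, u = N.act b c ((b : ℤ) * i) 0 w} ⊔ N.subL b c = ⊤ := by
  obtain ⟨W, hW⟩ := hN.fg b c
  refine ⟨W, ?_⟩
  rw [eq_top_iff, ← hW, Submodule.span_le]
  rintro _ ⟨w, hw, m, n, hm, hn, rfl⟩
  by_cases h0 : n = 0
  · subst h0
    refine Submodule.mem_sup_left (Submodule.subset_span ⟨w, hw, ((b : ℤ) * m).toNat, ?_⟩)
    rw [← natb hb hm]
  · refine Submodule.mem_sup_right ?_
    by_cases hc : c = 0
    · subst hc
      refine ⟨N.act b 0 m n w, ?_⟩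
      exact N.act_zero b 0 _
    · refine ⟨N.act b c m (n - c) w, ?_⟩
      have h1 : 0 ≤ (c : ℤ) * (n - c) := by
        rw [mul_sub, bb hc]
        have h2 : (c : ℤ) * n ≠ 0 := mul_ne_zero (by
          intro h3
          have := bb hc
          rw [h3] at this
          simp at this) h0
        omega
      rw [← N.act_add b c 0 c m (n - c) (by simp) hm (Fam.sgn_nonneg c) h1]
      congr 2
      · ring
      · ring

theorem L_tor (hN : N.Good) (c b : SignType) (hb : b ≠ 0) (x : N.V b c)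
    (hx : N.res (Sub.zero b) (Sub.refl c) x ∈ N.subL 0 c) :
    ∃ i : ℕ, N.act b c ((b : ℤ) * i) 0 x ∈ N.subL b c := by
  obtain ⟨y, hy⟩ := hx
  obtain ⟨i, hi⟩ := locn N hN hb c y
  obtain ⟨u, hu⟩ := hi i le_rfl
  refine ⟨i, u, ?_⟩
  apply hN.inj (Sub.zero b) (Sub.refl c)
  rw [N.res_act _ _ _ _ (by simp) (Fam.sgn_nonneg c), N.res_act _ _ _ _ (bnat b i) (by simp), hu,
    ← hy, ← N.act_add 0 c _ _ _ _ (by simp) (by simp) (Fam.sgn_nonneg c) (by simp),
    ← N.act_add 0 c _ _ _ _ (by simp) (by simp) (by simp) (Fam.sgn_nonneg c)]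
  congr 2
  · ring
  · ring

theorem famFred (hT : TriFred) : FamFred := by
  intro k _ N hN
  refine ⟨fun p q => ?_, fun c => ?_⟩
  · exact fred_gen N 0 (fun b => N.sub b p q) (fun b m hm => N.sub_act b p q m hm)
      (fun b => N.sub_res b p q) hT hN (H_fg N hN p q) (H_tor N hN p q)
  · exact fred_gen N c (fun b => N.subL b c) (fun b m hm => N.subL_act b c m hm)
      (fun b => N.subL_res b c) hT hN (L_fg N hN c) (L_tor N hN c)

end Pool.Agent.W108.LG
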